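import Pool.Agent.Helper30.LK.St

/-!
# Project LX (MP_d57c14_nt): for infinitely many `n` the least `k ≤ n / 2` with `k ^ 2 + k (n - k) + (n - k) ^ 2` prime is larger than
`c log n log log n log log log log n / (log log log n) ^ 2`.  Statements of the modules, with proofs.

`f = k ^ 2 + k (n - k) + (n - k) ^ 2 = n ^ 2 - n k + k ^ 2`. `x` is the parameter, `K` the bound for `k`. `n ≡ - 1` modulo the primes `l ≡ 1 (mod 3)` with
`log x < l ≤ z`, `z = exp (lz A x)` (then `f ≡ k ^ 2 + k + 1` modulo `l`), `n ≡ 0` modulo the other primes `l ≤ x / 2` (then `l ∣ k` implies `l ∣ f`). A surviving `k ≤ K < x log x / 2`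
is a product of primes `≤ z` (rare, Rankin) or a prime `> x / 2` with `k ^ 2 + k + 1` free of the primes of the first kind; these are removed one by one with the primes
`l ≡ 1 (mod 3)` in `(x / 2, x]`: `n ≡ - ω k` modulo `l`, `ω ^ 2 + ω + 1 ≡ 0`.
-/

set_option autoImplicit false

noncomputable section

namespace Pool.Agent.Helper27.LX

open Finset
open Pool.Agent.Helper30.LK (StSVU StMR3)
open Pool.Agent.Helper15.AB (StMT)
open Pool.Agent.Helper48.BK (StSW)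
open Pool.Agent.Helper30.PB (StPIP)

/-- `log z` -/
def lz (A : ℝ) (x : ℕ) : ℝ := Real.log x * Real.log (Real.log (Real.log x)) / (A * Real.log (Real.log x))

/-- the primes `l` (if prime) with `n ≡ - 1` modulo `l` -/
def In (A : ℝ) (x l : ℕ) : Prop := l % 3 = 1 ∧ Real.log x < (l : ℝ) ∧ Real.log l ≤ lz A x

open Classical in
/-- the surviving `k ≤ K` -/
def Sx (A : ℝ) (x K : ℕ) : Finset ℕ :=
  (Icc 1 K).filter (fun k => ∀ l : ℕ, l.Prime → 2 * l ≤ x → (In A x l → ¬ l ∣ k ^ 2 + k + 1) ∧ (¬ In A x l → ¬ l ∣ k))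

/-- (MR1, assume `hS : StSW`.) PROOF. Copy `Pool/Agent/Helper63/LK/M_MR3.lean` (module MR3 of project LK): its lemmas `T_bdd`, `T_eq`, `S_eq` and `Pool.Agent.Helper15.AB.hMT` give this upper bound in the same way (its last theorem states only the lower bound for the class 1
and the upper bound for the class 2). -/
def StMR1 : Prop := ∃ C : ℝ, 0 < C ∧ ∀ y : ℝ, 3 ≤ y →
  ∑ l ∈ (Icc 1 ⌊y⌋₊).filter (fun l => l.Prime ∧ l % 3 = 1), (1 : ℝ) / l ≤ Real.log (Real.log y) / 2 + C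

open Classical in
/-- (SMO, assume `hM : StMT`.) Smooth numbers by Rankin's trick. PROOF. `L = log x`, `LL = log L`, `LLL = log LL`, `z = exp (lz)`, `lz = L LLL / (A LL)`, `η = A LL / L = LLL / lz`, `σ = 1 - η` (`η ≤ 1/8` for large `x`). The number is at most
`∑_{k smooth} (K / k) ^ σ = K ^ (1 - η) ∏_{l ≤ z} (1 - l ^ (-σ))⁻¹` (Euler product: `EulerProduct.summable_and_hasSum_smoothNumbers_prod_primesBelow_geometric`, or a finite product of finite geometric sums) `≤ K ^ (1 - η) exp (3 ∑_{l ≤ z} l ^ (-σ))`, as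
`t = l ^ (-σ) ≤ 2 ^ (-7/8) ≤ 2/3` and `(1 - t)⁻¹ ≤ exp (3 t)` for `0 ≤ t ≤ 2/3`. `K ^ (-η) ≤ x ^ (-η) = exp (- A LL) = L ^ (-A)`. CLAIM: `∑_{l ≤ z} l ^ (-1 + η) ≤ C₁ LL` for `x ≥ x₀(A)`, with `C₁` independent of `A ≥ 1`; so with `A = 3 C₁ + 3` the number is at most `K L ^ (-A + 3 C₁) = K / L ^ 3`.
Proof of the claim (StMT: `|∑_{l ≤ y} 1 / l - log log y| ≤ C` for `y ≥ 3`): (i) `log l ≤ lz / LLL`: `l ^ η = exp (η log l) ≤ e`, and `∑_{l ≤ z} 1 / l ≤ log lz + C ≤ LL + C` (`lz ≤ L`): contribution `≤ 3 (LL + C)`. (ii) `lz / LLL < log l ≤ lz / 2`: `l ^ η ≤ exp (LLL / 2) = √LL` and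
`∑ 1 / l ≤ log (lz / 2) - log (lz / LLL) + 2 C ≤ log LLL + 2 C`: contribution `≤ √LL (log LLL + 2 C) ≤ LL` for large `x`. (iii) `lz / 2 < log l ≤ lz`: `l ^ η ≤ exp LLL = LL`, `∑ 1 / l ≤ log 2 + 2 C`: contribution `≤ (1 + 2 C) LL`. (`C₁ = 3 + 1 + 1 + 2 C + 1`, and `3 C ≤ LL`.) -/
def StSMO : Prop := ∃ A : ℝ, 1 ≤ A ∧ ∃ x₀ : ℕ, ∀ x K : ℕ, x₀ ≤ x → x ≤ K →
  (((Icc 1 K).filter (fun k => ∀ l : ℕ, l.Prime → l ∣ k → Real.log l ≤ lz A x)).card : ℝ) ≤ K / Real.log x ^ 3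

open Classical in
/-- (PRX, assume `hS : StSVU`, `hM : StMT`, `h3 : StMR3`, `h1 : StMR1`.) PROOF. Model: `Pool/Agent/Helper85/LK/M_CN2.lean` (its lemmas on the residue classes can be copied). StSVU with `Y = K`, `S l = {s < l : s = 0 ∨ (In A x l ∧ l ∣ s ^ 2 + s + 1)}`; `|S l| ≥ 1`, and `|S l| ≥ 3` if `In A x l` (`l % 3 = 1`).
If `q` is counted and `7 ≤ l ≤ K ^ δ ≤ K ^ (1/4) ≤ √x ≤ x / 2` is a prime then `l ≠ q`, so `l ∤ q`, and `q % l ∉ S l`. So the count is at most `C K exp (- ∑_{7 ≤ l ≤ K ^ δ} |S l| / l)`, and `∑ |S l| / l ≥ ∑_{7 ≤ l ≤ K ^ δ} 1 / l + 2 ∑_{In A x l, 7 ≤ l} 1 / l` for `z = exp (lz A x) ≤ K ^ δ` (large `x`: `lz ≤ δ log x`).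
StMT: the first sum is `≥ log (δ log x) - C`. StMR3 (lower bound at `z`) and StMR1 (upper bound at `log x ≥ 7`): the second is `≥ 2 (log (lz) / 2 - C - log log log x / 2 - C)`. So `exp(-..) ≤ C' (1 / log x) (log log x / lz)`. -/
def StPRX : Prop := ∀ A : ℝ, 1 ≤ A → ∃ C : ℝ, 0 < C ∧ ∃ x₀ : ℕ, ∀ x K : ℕ, x₀ ≤ x → x ≤ K → K ≤ x ^ 2 →
  (((Icc 1 K).filter (fun q => q.Prime ∧ x < 2 * q ∧ ∀ l : ℕ, l.Prime → In A x l → ¬ l ∣ q ^ 2 + q + 1)).card : ℝ) ≤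
    C * (K * Real.log (Real.log x) / (Real.log x * lz A x))

/-- (SUX, assume `hS : StSMO`, `hP : StPRX`.) PROOF. `k ∈ Sx A x K`. If all prime factors `l` of `k` satisfy `log l ≤ lz`: SMO. Otherwise there is a prime factor `q` with `log q > lz`, so not `In`, so `2 q > x`. `a = k / q < 2 K / x ≤ log x`. If `a > 1` it has a prime factor `l ≤ a < log x`, so not `In`, `2 l ≤ x`, contradiction.
So `k = q`; for `In A x l`: `2 l ≤ x` (`l ≤ exp (lz) ≤ √x`), `l ∤ q ^ 2 + q + 1`: PRX. `K / (log x) ^ 3 ≤ K log log x / (log x · lz)` as `lz ≤ log x` and `log log x ≥ 1`. -/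
def StSUX : Prop := ∃ A C : ℝ, 1 ≤ A ∧ 0 < C ∧ ∃ x₀ : ℕ, ∀ x K : ℕ, x₀ ≤ x → x ≤ K → 2 * (K : ℝ) ≤ x * Real.log x →
  ((Sx A x K).card : ℝ) ≤ C * (K * Real.log (Real.log x) / (Real.log x * lz A x))

/-- (FNX, assume `hS : StSUX`, `hP : StPIP`.) The theorem. -/
def StFNX : Prop := ∃ c : ℝ, 0 < c ∧ ∀ n₀ : ℕ, ∃ n : ℕ, n₀ ≤ n ∧ ∀ k : ℕ, 1 ≤ k →
  (k : ℝ) ≤ c * (Real.log n * Real.log (Real.log n) * Real.log (Real.log (Real.log (Real.log n))) /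
    Real.log (Real.log (Real.log n)) ^ 2) → 2 * k ≤ n ∧ ¬ (k ^ 2 + k * (n - k) + (n - k) ^ 2).Prime

end Pool.Agent.Helper27.LX
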